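import Pool.Agent.Lib_helper28.Chrom.Stmt

/-!
# The alpha move keeps the root condition
-/

open Finset

namespace Pool.Agent.Chrom

set_option linter.unusedSectionVars false

section maps

variable {V V' : Type*} [Fintype V] [DecidableEq V] [Fintype V'] [DecidableEq V']
variable {G : SimpleGraph V} {G' : SimpleGraph V'} {S : Finset V} {S' : Finset V'} {φ : V → V'}

/-- if a quotient map does not decrease the number of components of `G - S` then it does not join
components -/
lemma reachable_of_kk_le (hφ : Function.Surjective φ) (hS : ∀ v, v ∈ S ↔ φ v ∈ S')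
    (h1 : ∀ u v, (del G S).Adj u v → (del G' S').Reachable (φ u) (φ v))
    (hk : kk G S ≤ kk G' S') {u v : V} (hu : u ∉ S) (hv : v ∉ S)
    (hr : (del G' S').Reachable (φ u) (φ v)) : (del G S).Reachable u v := by
  classical
  let F : Finset V → Finset V' := fun C => if hC : C.Nonempty
      then comp G' S' (φ hC.choose) else ∅
  have hF : ∀ w, F (comp G S w) = comp G' S' (φ w) := by
    intro w
    have hne : (comp G S w).Nonempty := ⟨w, self_mem_comp w⟩
    show (if hC : (comp G S w).Nonempty then comp G' S' (φ hC.choose) else ∅) = _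
    rw [dif_pos hne]
    exact comp_eq_of_mem (mem_comp.2 (reachable_map h1 (mem_comp.1 hne.choose_spec)))
  have himg : (comps G S).image F = comps G' S' := by
    ext D
    rw [mem_image]
    constructor
    · rintro ⟨C, hC, rfl⟩
      obtain ⟨w, hw, rfl⟩ := mem_comps.1 hC
      rw [hF]
      exact comp_mem_comps fun h => hw ((hS w).2 h)
    · intro hD
      obtain ⟨y, hy, rfl⟩ := mem_comps.1 hD
      obtain ⟨w, rfl⟩ := hφ y
      exact ⟨comp G S w, comp_mem_comps fun h => hy ((hS w).1 h), hF w⟩
  have hinj : Set.InjOn F (comps G S : Set (Finset V)) := by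
    refine Finset.injOn_of_card_image_eq ?_
    refine le_antisymm card_image_le ?_
    rw [himg]
    exact hk
  have h2 : comp G S u = comp G S v := by
    refine hinj (comp_mem_comps hu) (comp_mem_comps hv) ?_
    rw [hF, hF]
    exact (comp_eq_of_mem (mem_comp.2 hr)).symm
  rw [← mem_comp, h2]
  exact self_mem_comp v

end maps

theorem stmtRootAvoid : StmtRootAvoid := by
  intro V _ _ A T a b h hroot hT hun S hS
  have hle : gr A ≤ gr (avoid A T) := gr_mono fun S hS => hS.1
  have hne : S.Nonempty := card_pos.1 (by have := hS.two; omega)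
  have h0 := h.face S hS.face.1 hne
  have h1 := cc_anti_graph hle S
  rw [hS.zero] at h1
  have h2 : cc (gr A) S = 0 := le_antisymm h0 h1
  have htight : Tight A S := ⟨hS.face.1, hS.two, h2⟩
  by_cases ha : a ∈ S
  · exact Or.inl ha
  by_cases hb : b ∈ S
  · exact Or.inr (Or.inl hb)
  refine Or.inr (Or.inr fun hr => ?_)
  rcases hroot S htight with h3 | h3 | h3
  · exact ha h3
  · exact hb h3
  · refine h3 (reachable_of_kk_le (φ := id) Function.surjective_id (fun v => Iff.rfl) ?_ ?_ ha hb hr)
    · intro u v huv
      exact SimpleGraph.Adj.reachable ⟨hle huv.1, huv.2⟩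
    · have h4 : cc (gr A) S = cc (gr (avoid A T)) S := by rw [h2, hS.zero]
      unfold cc at h4
      omega

theorem stmtRootPiece : StmtRootPiece := by
  intro V _ _ A T a b h hroot hT hun C hC P hP
  have hTne : T.Nonempty := card_pos.1 (by have := hT.two; omega)
  obtain ⟨d, hd⟩ := id hTne
  have hdC : d ∉ C := fun hh => Finset.disjoint_left.1 (comps_disjoint_S hC) hh hd
  by_cases hn : none ∈ P
  · by_cases ha : a ∈ C
    · by_cases hb : b ∈ C
      · exfalso
        rcases hroot T hT with h1 | h1 | h1
        · exact Finset.disjoint_left.1 (comps_disjoint_S hC) ha h1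
        · exact Finset.disjoint_left.1 (comps_disjoint_S hC) hb h1
        · refine h1 ?_
          rw [← mem_comp, comp_eq_of_mem_comps hC ha]
          exact hb
      · right; left
        rw [pproj_not_mem hb]
        exact hn
    · left
      rw [pproj_not_mem ha]
      exact hn
  · have hcard := card_some' hn
    have hface : A (some' P) := (piece_out hn).1 hP.face
    have hne : (some' P).Nonempty := card_pos.1 (by rw [hcard]; have := hP.two; omega)
    have h0 := h.face _ hface hne
    have h1 := cc_piece_le h hTne hC hn
    rw [hP.zero] at h1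
    have h2 : cc (gr A) (some' P) = 0 := le_antisymm h0 h1
    have htight : Tight A (some' P) := ⟨hface, by rw [hcard]; exact hP.two, h2⟩
    by_cases ha : a ∈ some' P
    · exact Or.inl ((mem_some'_iff_pproj hn).1 ha)
    by_cases hb : b ∈ some' P
    · exact Or.inr (Or.inl ((mem_some'_iff_pproj hn).1 hb))
    refine Or.inr (Or.inr fun hr => ?_)
    rcases hroot _ htight with h3 | h3 | h3
    · exact ha h3
    · exact hb h3
    · refine h3 (reachable_of_kk_le (pproj_surjective hdC) (fun v => mem_some'_iff_pproj hn) ?_ ?_
        ha hb hr)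
      · intro u v huv
        exact reach_pproj h hC hn huv
      · have h4 : cc (gr A) (some' P) = cc (gr (piece A T C)) P := by rw [h2, hP.zero]
        unfold cc at h4
        omega

end Pool.Agent.Chrom
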